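import Mathlib

set_option autoImplicit false

namespace Pool.Agent.Results.MP_82263f_pr.Ferro

open Classical in
/-- Boltzmann weight of the Potts model. -/
noncomputable def weight {n q : ℕ} (G : SimpleGraph (Fin n)) (β : ℝ) (σ : Fin n → Fin q) : ℝ :=
  Real.exp (β * ((G.edgeFinset.filter fun e => (e.map σ).IsDiag).card : ℝ))

/-- The Potts measure. -/
noncomputable def potts {n q : ℕ} (G : SimpleGraph (Fin n)) (β : ℝ) (σ : Fin n → Fin q) : ℝ :=
  weight G β σ / ∑ τ : Fin n → Fin q, weight G β τ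

/-- Heat-bath kernel at the site `v`. -/
noncomputable def heatBath {n q : ℕ} (G : SimpleGraph (Fin n)) (β : ℝ) (v : Fin n)
    (σ τ : Fin n → Fin q) : ℝ :=
  if ∀ u, u ≠ v → τ u = σ u then potts G β τ / ∑ c, potts G β (Function.update σ v c) else 0

/-- Law after updating the listed sites in order, from the constant configuration `g`. -/
noncomputable def law {n q : ℕ} (G : SimpleGraph (Fin n)) (β : ℝ) (g : Fin q) (l : List (Fin n)) :
    (Fin n → Fin q) → ℝ :=
  l.foldl (fun μ v τ => ∑ σ, μ σ * heatBath G β v σ τ) fun σ => if σ = fun _ => g then 1 else 0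

/-- Total variation distance between two mass functions on a finite set. -/
noncomputable def tv {Ω : Type} (μ ν : Ω → ℝ) : ℝ :=
  ⨆ A : Finset Ω, |∑ z ∈ A, μ z - ∑ z ∈ A, ν z|

lemma le_tv {Ω : Type} [Fintype Ω] (μ ν : Ω → ℝ) : ∑ z, max (μ z - ν z) 0 ≤ tv μ ν := by
  classical
  refine le_trans ?_ (le_ciSup (Finite.bddAbove_range _) (Finset.univ.filter fun z => ν z ≤ μ z))
  refine le_trans ?_ (le_abs_self _)
  rw [← Finset.sum_sub_distrib, Finset.sum_filter]
  refine Finset.sum_le_sum fun z _ => ?_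
  split_ifs with h
  · exact max_le le_rfl (sub_nonneg.2 h)
  · exact max_le (by linarith) le_rfl

lemma tv_le {Ω : Type} [Fintype Ω] (μ ν : Ω → ℝ) :
    tv μ ν ≤ max (∑ z, max (μ z - ν z) 0) (∑ z, max (ν z - μ z) 0) := by
  have key : ∀ (μ ν : Ω → ℝ) (A : Finset Ω),
      ∑ z ∈ A, μ z - ∑ z ∈ A, ν z ≤ ∑ z, max (μ z - ν z) 0 := by
    intro μ ν A
    rw [← Finset.sum_sub_distrib]
    exact (Finset.sum_le_sum fun z _ => le_max_left _ _).trans
      (Finset.sum_le_sum_of_subset_of_nonneg (Finset.subset_univ A) fun z _ _ => le_max_right _ _)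
  refine ciSup_le fun A => abs_le.2 ⟨?_, (key μ ν A).trans (le_max_left _ _)⟩
  have := (key ν μ A).trans (le_max_right (∑ z, max (μ z - ν z) 0) _)
  linarith

lemma step_eq {n q : ℕ} (G : SimpleGraph (Fin n)) (β : ℝ) (v : Fin n) (μ : (Fin n → Fin q) → ℝ)
    (τ : Fin n → Fin q) : ∑ σ, μ σ * heatBath G β v σ τ =
      (∑ c, μ (Function.update τ v c)) * weight G β τ /
        ∑ c, weight G β (Function.update τ v c) := by
  have hZ : 0 < ∑ τ : Fin n → Fin q, weight G β τ :=
    Finset.sum_pos (fun _ _ => Real.exp_pos _) ⟨τ, Finset.mem_univ _⟩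
  rw [Finset.sum_mul, Finset.sum_div]
  symm
  refine Finset.sum_of_injOn (fun c => Function.update τ v c)
    (Function.update_injective τ v).injOn (fun _ _ => Finset.mem_univ _) ?_ ?_
  · intro σ _ hσ
    rw [heatBath, if_neg, mul_zero]
    intro h
    refine hσ ⟨σ v, Finset.mem_coe.2 (Finset.mem_univ _), funext fun u => ?_⟩
    by_cases hu : u = v
    · simp [hu]
    · simp [Function.update_of_ne hu, h u hu]
  · intro c _
    rw [heatBath, if_pos fun u hu => (Function.update_of_ne hu _ _).symm]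
    simp only [Function.update_idem, potts]
    rw [← Finset.sum_div, div_div_div_cancel_right₀ hZ.ne', mul_div_assoc]

def tree : SimpleGraph (Fin 5) where
  Adj a b := (a, b) ∈ [((1 : Fin 5), (2 : Fin 5)), (2, 1), (0, 3), (3, 0), (1, 3), (3, 1), (3, 4), (4, 3)]
  symm := ⟨by decide⟩
  loopless := ⟨by decide⟩

instance : DecidableRel tree.Adj := fun a b => by
  unfold tree
  infer_instance

abbrev Cfg := Fin 5 → Fin 3

def cnt (σ : Cfg) : ℕ := (if σ 1 = σ 2 then 1 else 0) + (if σ 0 = σ 3 then 1 else 0) +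
  (if σ 1 = σ 3 then 1 else 0) + (if σ 3 = σ 4 then 1 else 0)

def wQ (σ : Cfg) : ℚ := (13 ^ cnt σ : ℕ)

lemma weight_eq (σ : Cfg) : weight tree (Real.log 13) σ = wQ σ := by
  have h1 : ∀ inst : Fintype tree.edgeSet, @SimpleGraph.edgeFinset _ tree inst =
      {s(1, 2), s(0, 3), s(1, 3), s(3, 4)} := by
    have h0 : tree.edgeFinset = {s(1, 2), s(0, 3), s(1, 3), s(3, 4)} := by decide
    intro inst
    rw [← h0]
    ext e
    simp only [SimpleGraph.mem_edgeFinset]
  have h3 : weight tree (Real.log 13) σ = Real.exp (Real.log 13 * (cnt σ : ℝ)) := by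
    rw [weight, h1, Finset.card_filter, Finset.sum_insert (by decide),
      Finset.sum_insert (by decide), Finset.sum_pair (by decide)]
    simp only [Sym2.map_mk, Sym2.mk_isDiag_iff, cnt, add_assoc]
  rw [h3, mul_comm, Real.exp_nat_mul, Real.exp_log (by norm_num), wQ]
  push_cast
  rfl

def enc (σ : Cfg) : ℕ := σ 0 + 3 * σ 1 + 9 * σ 2 + 27 * σ 3 + 81 * σ 4

def dec (i : ℕ) : Cfg := fun j => ⟨i / 3 ^ (j : ℕ) % 3, Nat.mod_lt _ (by norm_num)⟩

lemma dec_enc (σ : Cfg) : dec (enc σ) = σ ∧ enc σ < 243 := by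
  have h : ∀ a b c d e : Fin 3, dec (enc ![a, b, c, d, e]) = ![a, b, c, d, e] ∧
      enc ![a, b, c, d, e] < 243 := by decide +kernel
  have h2 : σ = ![σ 0, σ 1, σ 2, σ 3, σ 4] := by
    funext j
    fin_cases j <;> rfl
  rw [h2]
  exact h _ _ _ _ _

lemma enc_dec : ∀ i < 243, enc (dec i) = i := by decide +kernel

def tab (f : Cfg → ℚ) : List ℚ := (List.range 243).map fun i => f (dec i)

def look (L : List ℚ) (σ : Cfg) : ℚ := L.getD (enc σ) 0

lemma look_tab (f : Cfg → ℚ) (σ : Cfg) : look (tab f) σ = f σ := by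
  obtain ⟨h1, h2⟩ := dec_enc σ
  simp [look, tab, h1, h2]

lemma sum_tab (f : Cfg → ℚ) : ∑ σ, f σ = (tab f).sum := by
  have : (tab f).sum = ∑ i ∈ Finset.range 243, f (dec i) := by
    rw [tab, Finset.sum_eq_multiset_sum, Finset.range_val, Multiset.range, Multiset.map_coe,
      Multiset.sum_coe]
  rw [this]
  symm
  refine Finset.sum_bij' (fun i _ => dec i) (fun σ _ => enc σ) (fun _ _ => Finset.mem_univ _)
    (fun σ _ => Finset.mem_range.2 (dec_enc σ).2)
    (fun i hi => enc_dec i (Finset.mem_range.1 hi)) (fun σ _ => (dec_enc σ).1) fun _ _ => rfl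

def stepQ (L : List ℚ) (v : Fin 5) : List ℚ := tab fun τ =>
  (look L (Function.update τ v 0) + look L (Function.update τ v 1) +
    look L (Function.update τ v 2)) * wQ τ /
    (wQ (Function.update τ v 0) + wQ (Function.update τ v 1) + wQ (Function.update τ v 2))

def start : List ℚ := tab fun σ => if enc σ = 0 then 1 else 0

lemma fold_eq (l : List (Fin 5)) : ∀ (μ : Cfg → ℝ) (L : List ℚ), (∀ σ, μ σ = look L σ) →
    ∀ τ, l.foldl (fun μ v τ => ∑ σ, μ σ * heatBath tree (Real.log 13) v σ τ) μ τ =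
      look (l.foldl stepQ L) τ := by
  induction l with
  | nil => exact fun μ L h => h
  | cons v l ih =>
    intro μ L h
    refine ih _ _ fun τ => ?_
    beta_reduce
    rw [step_eq, stepQ, look_tab]
    simp only [Fin.sum_univ_three, weight_eq, h]
    push_cast
    rfl

lemma law_eq (l : List (Fin 5)) (τ : Cfg) :
    law tree (Real.log 13) 0 l τ = look (l.foldl stepQ start) τ := by
  refine fold_eq l _ _ (fun σ => ?_) τ
  rw [start, look_tab]
  have : (σ = fun _ => 0) ↔ enc σ = 0 := by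
    constructor
    · rintro rfl
      rfl
    · intro h
      rw [← (dec_enc σ).1, h]
      decide
  simp only [this]
  split_ifs <;> simp

lemma potts_eq (σ : Cfg) : potts tree (Real.log 13) σ = (wQ σ / 151875 : ℚ) := by
  have h : ∑ τ : Cfg, wQ τ = 151875 := by
    rw [sum_tab]
    decide +kernel
  have h2 : ∑ τ : Cfg, weight tree (Real.log 13) τ = 151875 := by
    simp only [weight_eq]
    exact_mod_cast h
  rw [potts, h2, weight_eq]
  push_cast
  rfl

def up (L : List ℚ) : ℚ := (tab fun σ => max (look L σ - wQ σ / 151875) 0).sum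

def down (L : List ℚ) : ℚ := (tab fun σ => max (wQ σ / 151875 - look L σ) 0).sum

lemma check : max (up (([4, 0, 3, 4, 3, 1, 3, 1] : List (Fin 5)).foldl stepQ start))
    (down (([4, 0, 3, 4, 3, 1, 3, 1] : List (Fin 5)).foldl stepQ start)) <
    up (([4, 0, 3, 1, 4, 3, 1, 3, 1] : List (Fin 5)).foldl stepQ start) := by
  decide +kernel

theorem result : ∃ (n : ℕ) (G : SimpleGraph (Fin n)) (β : ℝ) (g : Fin 3) (v w : List (Fin n)),
    0 < β ∧ w.Sublist v ∧ tv (law G β g w) (potts G β) < tv (law G β g v) (potts G β) := by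
  refine ⟨5, tree, Real.log 13, 0, [4, 0, 3, 1, 4, 3, 1, 3, 1], [4, 0, 3, 4, 3, 1, 3, 1],
    Real.log_pos (by norm_num), by decide, ?_⟩
  refine lt_of_le_of_lt (tv_le _ _) (lt_of_lt_of_le ?_ (le_tv _ _))
  have := check
  simp only [up, down, ← sum_tab] at this
  simp only [law_eq, potts_eq]
  exact_mod_cast this

end Pool.Agent.Results.MP_82263f_pr.Ferro
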